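import Pool.Agent.Helper7.LV.P5c
import Pool.Agent.Helper46.LV.P1
import Pool.Agent.Helper46.LV.P2

/-! P5: the linear problem with zero boundary data. -/

namespace Pool.Agent.H62.LV

open MeasureTheory Set Filter Topology

theorem P5_int_nonneg {L : ℝ} (hL : 0 < L) {f : ℝ → ℝ} (h : ∀ x ∈ Ioo 0 L, 0 ≤ f x) :
    0 ≤ ∫ x in (0 : ℝ)..L, f x := by
  rw [intervalIntegral.integral_of_le hL.le, integral_Ioc_eq_integral_Ioo]
  exact setIntegral_nonneg measurableSet_Ioo h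

theorem P5_int_mono {L : ℝ} (hL : 0 < L) {f g : ℝ → ℝ} (hf : IntervalIntegrable f volume 0 L)
    (hg : IntervalIntegrable g volume 0 L) (h : ∀ x ∈ Ioo 0 L, f x ≤ g x) :
    ∫ x in (0 : ℝ)..L, f x ≤ ∫ x in (0 : ℝ)..L, g x := by
  have := P5_int_nonneg hL (f := fun x => g x - f x) (fun x hx => sub_nonneg.mpr (h x hx))
  rw [intervalIntegral.integral_sub hg hf] at this
  linarith

/-- boundedness of the mild solution at fixed time, crude -/
theorem P5_mild_bdd {L K C : ℝ} (hL : 0 < L) (hK : 0 ≤ K) {h₀ : ℝ → ℝ} {H : ℝ → ℝ → ℝ}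
    (hMB : MB C h₀ H) {t : ℝ} (ht : 0 < t) :
    ∃ B : ℝ, ∀ x, |mild L K h₀ H t x| ≤ B := by
  refine ⟨∑' n, (2 * C / t + 2 * C) * (1 / mu L n), fun x => ?_⟩
  unfold mild
  rw [← Real.norm_eq_abs]
  exact tsum_of_norm_bounded ((P5_summable_mu hL).mul_left _).hasSum
    (fun n => P5_term_le hL hK hMB n ht le_rfl x)

theorem P5_F_ii {L K C : ℝ} (hL : 0 < L) {h₀ : ℝ → ℝ} {H : ℝ → ℝ → ℝ}
    (hMB : MB C h₀ H) (t : ℝ) (N : ℕ) (c : ℕ → ℝ) :
    IntervalIntegrable (fun s => Real.exp (-K * (t - s)) *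
          ∫ x in (0 : ℝ)..L, H s x * flow L N c (t - s) x) volume 0 t := by
  have h1 : ∀ s, Real.exp (-K * (t - s)) * (∫ x in (0 : ℝ)..L, H s x * flow L N c (t - s) x) =
      ∑ n ∈ Finset.range N, c n * (L / 2) *
        (Real.exp (-(K + mu L n) * (t - s)) * coef L (H s) n) := by
    intro s
    have m1 : Measurable (H s) := hMB.2.1.comp (measurable_const.prodMk measurable_id)
    rw [P5_int_flow hL m1 (hMB.2.2.2 s), Finset.mul_sum]
    apply Finset.sum_congr rfl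
    intro n _
    have : Real.exp (-(K + mu L n) * (t - s)) =
        Real.exp (-K * (t - s)) * Real.exp (-(mu L n) * (t - s)) := by
      rw [← Real.exp_add]; congr 1; ring
    rw [this]
    ring
  simp_rw [h1]
  have h2 := IntervalIntegrable.sum (μ := volume) (a := 0) (b := t) (Finset.range N)
    (f := fun n s => c n * (L / 2) * (Real.exp (-(K + mu L n) * (t - s)) * coef L (H s) n))
    (fun n _ => (P5_exp_ii hL hMB n (K + mu L n) t 0 t).const_mul _)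
  have h3 : (∑ n ∈ Finset.range N, fun s : ℝ => c n * (L / 2) *
      (Real.exp (-(K + mu L n) * (t - s)) * coef L (H s) n)) =
      fun s => ∑ n ∈ Finset.range N, c n * (L / 2) *
        (Real.exp (-(K + mu L n) * (t - s)) * coef L (H s) n) := by
    funext s
    simp only [Finset.sum_apply]
  rw [h3] at h2
  exact h2

theorem P5_repr_nonneg {L K C : ℝ} (hL : 0 < L) (hK : 0 ≤ K) {h₀ : ℝ → ℝ} {H : ℝ → ℝ → ℝ}
    (hMB : MB C h₀ H) (p₀ : ∀ x ∈ Ioo 0 L, 0 ≤ h₀ x)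
    (p : ∀ t, 0 < t → ∀ x ∈ Ioo 0 L, 0 ≤ H t x) {t : ℝ} (ht : 0 < t) (N : ℕ) (c : ℕ → ℝ)
    (hc : ∀ x ∈ Icc 0 L, 0 ≤ flow L N c 0 x) :
    0 ≤ ∫ x in (0 : ℝ)..L, mild L K h₀ H t x * flow L N c 0 x := by
  rw [P5_repr hL hK hMB ht]
  apply add_nonneg
  · apply mul_nonneg (Real.exp_pos _).le
    apply P5_int_nonneg hL
    intro x hx
    exact mul_nonneg (p₀ x hx) ((flow_nonneg hL hc ht.le).1 x (Ioo_subset_Icc_self hx))
  · apply P5_int_nonneg ht
    intro s hs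
    apply mul_nonneg (Real.exp_pos _).le
    apply P5_int_nonneg hL
    intro x hx
    exact mul_nonneg (p s hs.1 x hx)
      ((flow_nonneg hL hc (sub_nonneg.mpr hs.2.le)).1 x (Ioo_subset_Icc_self hx))

theorem mild_nonneg {L K C : ℝ} (hL : 0 < L) (hK : 0 ≤ K) {h₀ : ℝ → ℝ} {H : ℝ → ℝ → ℝ}
    (hMB : MB C h₀ H) (p₀ : ∀ x ∈ Ioo 0 L, 0 ≤ h₀ x)
    (p : ∀ t, 0 < t → ∀ x ∈ Ioo 0 L, 0 ≤ H t x) {t : ℝ} (ht : 0 < t) :
    ∀ x ∈ Icc 0 L, 0 ≤ mild L K h₀ H t x := by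
  obtain ⟨B, hB⟩ := P5_mild_bdd hL hK hMB ht
  have h1 := detect hL (g := mild L K h₀ H t) (P5_mild_cont hL hK hMB ht).continuousOn
    (fun x _ => hB x) (fun N c hc => P5_repr_nonneg hL hK hMB p₀ p ht N c hc)
  intro x hx
  rcases eq_or_lt_of_le hx.1 with h | h
  · rw [← h, (mild_boundary hL h₀ H t).1]
  rcases eq_or_lt_of_le hx.2 with h' | h'
  · rw [h', (mild_boundary hL h₀ H t).2]
  exact h1 x ⟨h, h'⟩

/-- upper bound `h₀ ≤ A`, `H ≤ B` gives `∫ mild ψ ≤ (A e^{-Kt} + B ∫ e^{-K(t-s)}) ∫ ψ` -/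
theorem P5_repr_le {L K C A B : ℝ} (hL : 0 < L) (hK : 0 ≤ K) (hA : 0 ≤ A) (hB : 0 ≤ B)
    {h₀ : ℝ → ℝ} {H : ℝ → ℝ → ℝ} (hMB : MB C h₀ H) (p₀ : ∀ x ∈ Ioo 0 L, h₀ x ≤ A)
    (p : ∀ t, 0 < t → ∀ x ∈ Ioo 0 L, H t x ≤ B) {t : ℝ} (ht : 0 < t) (N : ℕ) (c : ℕ → ℝ)
    (hc : ∀ x ∈ Icc 0 L, 0 ≤ flow L N c 0 x) :
    ∫ x in (0 : ℝ)..L, mild L K h₀ H t x * flow L N c 0 x ≤
      (A * Real.exp (-K * t) + B * ∫ s in (0 : ℝ)..t, Real.exp (-K * (t - s))) *
        ∫ x in (0 : ℝ)..L, flow L N c 0 x := by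
  rw [P5_repr hL hK hMB ht]
  set I := ∫ x in (0 : ℝ)..L, flow L N c 0 x with hI
  have key : ∀ (g : ℝ → ℝ) (D τ : ℝ), Measurable g → (∀ x, |g x| ≤ C) → 0 ≤ D → 0 ≤ τ →
      (∀ x ∈ Ioo 0 L, g x ≤ D) → ∫ x in (0 : ℝ)..L, g x * flow L N c τ x ≤ D * I := by
    intro g D τ hg hgC hD hτ hgD
    calc ∫ x in (0 : ℝ)..L, g x * flow L N c τ x ≤ ∫ x in (0 : ℝ)..L, D * flow L N c τ x := by
          apply P5_int_mono hL (P5_mul_ii hg hgC (P5_flow_cont L N c τ))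
            ((continuous_const.mul (P5_flow_cont L N c τ)).intervalIntegrable _ _)
          intro x hx
          exact mul_le_mul_of_nonneg_right (hgD x hx)
            ((flow_nonneg hL hc hτ).1 x (Ioo_subset_Icc_self hx))
      _ = D * ∫ x in (0 : ℝ)..L, flow L N c τ x := intervalIntegral.integral_const_mul _ _
      _ ≤ D * I := mul_le_mul_of_nonneg_left (flow_integral_le hL hc hτ) hD
  have h1 : Real.exp (-K * t) * (∫ x in (0 : ℝ)..L, h₀ x * flow L N c t x) ≤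
      Real.exp (-K * t) * (A * I) :=
    mul_le_mul_of_nonneg_left (key h₀ A t hMB.1 hMB.2.2.1 hA ht.le p₀) (Real.exp_pos _).le
  have h2 : (∫ s in (0 : ℝ)..t, Real.exp (-K * (t - s)) *
          ∫ x in (0 : ℝ)..L, H s x * flow L N c (t - s) x) ≤
      ∫ s in (0 : ℝ)..t, Real.exp (-K * (t - s)) * (B * I) := by
    apply P5_int_mono ht (P5_F_ii hL hMB t N c) (Continuous.intervalIntegrable (by fun_prop) _ _)
    intro s hs
    apply mul_le_mul_of_nonneg_left _ (Real.exp_pos _).le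
    exact key (H s) B (t - s) (hMB.2.1.comp (measurable_const.prodMk measurable_id))
      (hMB.2.2.2 s) hB (sub_nonneg.mpr hs.2.le) (p s hs.1)
  rw [intervalIntegral.integral_mul_const] at h2
  calc _ ≤ Real.exp (-K * t) * (A * I) +
      (∫ s in (0 : ℝ)..t, Real.exp (-K * (t - s))) * (B * I) := add_le_add h1 h2
    _ = _ := by ring

theorem P5_exp_int {K : ℝ} (hK : 0 < K) (t : ℝ) :
    ∫ s in (0 : ℝ)..t, Real.exp (-K * (t - s)) = (1 - Real.exp (-K * t)) / K := by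
  have hd : ∀ s ∈ uIcc 0 t, HasDerivAt (fun s => Real.exp (-K * (t - s)) / K)
      (Real.exp (-K * (t - s))) s := by
    intro s _
    have e1 : HasDerivAt (fun s : ℝ => -K * (t - s)) K s := by
      have := ((hasDerivAt_const s t).sub (hasDerivAt_id s)).const_mul (-K)
      simpa using this
    have e2 := e1.exp.div_const K
    have e3 : Real.exp (-K * (t - s)) * K / K = Real.exp (-K * (t - s)) := by field_simp
    rwa [e3] at e2
  rw [intervalIntegral.integral_eq_sub_of_hasDerivAt hd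
    (Continuous.intervalIntegrable (by fun_prop) _ _)]
  simp
  ring

/-- from `∫ mild ψ ≤ D ∫ ψ` to `mild ≤ D` -/
theorem P5_le_of_repr {L K C D : ℝ} (hL : 0 < L) (hK : 0 ≤ K) (hD : 0 ≤ D) {h₀ : ℝ → ℝ}
    {H : ℝ → ℝ → ℝ} (hMB : MB C h₀ H) {t : ℝ} (ht : 0 < t)
    (h : ∀ (N : ℕ) (c : ℕ → ℝ), (∀ x ∈ Icc 0 L, 0 ≤ flow L N c 0 x) →
      ∫ x in (0 : ℝ)..L, mild L K h₀ H t x * flow L N c 0 x ≤
        D * ∫ x in (0 : ℝ)..L, flow L N c 0 x) :
    ∀ x ∈ Icc 0 L, mild L K h₀ H t x ≤ D := by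
  obtain ⟨B, hB⟩ := P5_mild_bdd hL hK hMB ht
  have h1 := detect hL (g := fun x => D - mild L K h₀ H t x) (C := D + B)
    (continuous_const.sub (P5_mild_cont hL hK hMB ht)).continuousOn
    (fun x _ => by
      calc |D - mild L K h₀ H t x| ≤ |D| + |mild L K h₀ H t x| := abs_sub _ _
        _ ≤ D + B := by rw [abs_of_nonneg hD]; linarith [hB x])
    (fun N c hc => by
      have e : ∀ x, (D - mild L K h₀ H t x) * flow L N c 0 x =
        D * flow L N c 0 x - mild L K h₀ H t x * flow L N c 0 x := fun x => by ring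
      simp_rw [e]
      have i1 : IntervalIntegrable (fun x => D * flow L N c 0 x) volume 0 L :=
        (continuous_const.mul (P5_flow_cont L N c 0)).intervalIntegrable _ _
      have i2 : IntervalIntegrable (fun x => mild L K h₀ H t x * flow L N c 0 x) volume 0 L :=
        ((P5_mild_cont hL hK hMB ht).mul (P5_flow_cont L N c 0)).intervalIntegrable _ _
      rw [intervalIntegral.integral_sub i1 i2, intervalIntegral.integral_const_mul]
      linarith [h N c hc])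
  intro x hx
  rcases eq_or_lt_of_le hx.1 with h | h
  · rw [← h, (mild_boundary hL h₀ H t).1]; exact hD
  rcases eq_or_lt_of_le hx.2 with h' | h'
  · rw [h', (mild_boundary hL h₀ H t).2]; exact hD
  linarith [h1 x ⟨h, h'⟩]

theorem mild_le_one {L K C : ℝ} (hL : 0 < L) (hK : 0 < K) {h₀ : ℝ → ℝ} {H : ℝ → ℝ → ℝ}
    (hMB : MB C h₀ H) (p₀ : ∀ x ∈ Ioo 0 L, h₀ x ≤ 1)
    (p : ∀ t, 0 < t → ∀ x ∈ Ioo 0 L, H t x ≤ K) {t : ℝ} (ht : 0 < t) :
    ∀ x ∈ Icc 0 L, mild L K h₀ H t x ≤ 1 := by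
  apply P5_le_of_repr hL hK.le zero_le_one hMB ht
  intro N c hc
  have := P5_repr_le hL hK.le zero_le_one hK.le hMB p₀ p ht N c hc
  rw [P5_exp_int hK] at this
  have e : 1 * Real.exp (-K * t) + K * ((1 - Real.exp (-K * t)) / K) = 1 := by
    field_simp
    ring
  rwa [e] at this

/-- the bound `|mild| ≤ C (1 + t)` -/
theorem P5_mild_abs {L K C : ℝ} (hL : 0 < L) (hK : 0 ≤ K) {h₀ : ℝ → ℝ} {H : ℝ → ℝ → ℝ}
    (hMB : MB C h₀ H) {t : ℝ} (ht : 0 < t) : ∀ x ∈ Icc 0 L, |mild L K h₀ H t x| ≤ C * (1 + t) := by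
  have hC : 0 ≤ C := (abs_nonneg _).trans (hMB.2.2.1 0)
  have main : ∀ {h₀ : ℝ → ℝ} {H : ℝ → ℝ → ℝ}, MB C h₀ H →
      ∀ x ∈ Icc 0 L, mild L K h₀ H t x ≤ C * (1 + t) := by
    intro h₀ H hMB
    apply P5_le_of_repr hL hK (by positivity) hMB ht
    intro N c hc
    have h1 := P5_repr_le hL hK hC hC hMB (fun x _ => (le_abs_self _).trans (hMB.2.2.1 x))
      (fun t _ x _ => (le_abs_self _).trans (hMB.2.2.2 t x)) ht N c hc
    refine h1.trans ?_
    have hI : 0 ≤ ∫ x in (0 : ℝ)..L, flow L N c 0 x :=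
      P5_int_nonneg hL (fun x hx => hc x (Ioo_subset_Icc_self hx))
    apply mul_le_mul_of_nonneg_right _ hI
    have e1 : Real.exp (-K * t) ≤ 1 := by
      apply Real.exp_le_one_iff.mpr
      nlinarith [mul_nonneg hK ht.le]
    have e2 : ∫ s in (0 : ℝ)..t, Real.exp (-K * (t - s)) ≤ t := by
      calc ∫ s in (0 : ℝ)..t, Real.exp (-K * (t - s)) ≤ ∫ s in (0 : ℝ)..t, (1 : ℝ) := by
            apply P5_int_mono ht (Continuous.intervalIntegrable (by fun_prop) _ _)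
              intervalIntegrable_const
            intro s hs
            apply Real.exp_le_one_iff.mpr
            nlinarith [mul_nonneg hK (sub_nonneg.mpr hs.2.le)]
        _ = t := by simp
    have e3 := mul_le_mul_of_nonneg_left e1 hC
    have e4 := mul_le_mul_of_nonneg_left e2 hC
    linarith
  intro x hx
  rw [abs_le]
  refine ⟨?_, main hMB x hx⟩
  have hMB' : MB C (fun x => (-1) * h₀ x + 0 * h₀ x) (fun s x => (-1) * H s x + 0 * H s x) := by
    refine ⟨(hMB.1.const_mul _).add (hMB.1.const_mul _),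
      (hMB.2.1.const_mul _).add (hMB.2.1.const_mul _), fun x => ?_, fun t x => ?_⟩
    · simpa using hMB.2.2.1 x
    · simpa using hMB.2.2.2 t x
  have h2 := main hMB' x hx
  rw [mild_add hL hK hMB hMB (-1) 0 ht x] at h2
  linarith

theorem P5_reg {L K C : ℝ} (hL : 0 < L) (hK : 0 ≤ K) {h₀ : ℝ → ℝ} {H : ℝ → ℝ → ℝ}
    (hMB : MB C h₀ H) : Reg L (mild L K h₀ H) := by
  have hC : 0 ≤ C := (abs_nonneg _).trans (hMB.2.2.1 0)
  refine ⟨(mild_continuousOn hL hK hMB).mono (prod_mono_right (subset_univ _)),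
    fun T => ⟨C * (1 + T), ?_⟩⟩
  intro t ht x hx
  refine (P5_mild_abs hL hK hMB ht.1 x (Ioo_subset_Icc_self hx)).trans ?_
  exact mul_le_mul_of_nonneg_left (by linarith [ht.2]) hC

theorem mild_weak {L K C : ℝ} (hL : 0 < L) (hK : 0 ≤ K) {h₀ : ℝ → ℝ} {H : ℝ → ℝ → ℝ}
    (hMB : MB C h₀ H) :
    WeakHeat L h₀ (fun _ => 0) (fun _ => 0) (fun s x => H s x - K * mild L K h₀ H s x)
      (mild L K h₀ H) := by
  intro φ hφ hφ0 hφL t ht
  obtain ⟨c1, c2, d1, d2⟩ := cont_deriv2 hφ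
  have c0 : Continuous φ := hφ.continuous
  have hC : 0 ≤ C := (abs_nonneg _).trans (hMB.2.2.1 0)
  have hw := P5_reg hL hK hMB
  set w := mild L K h₀ H with hwdef
  set D := C * (1 + t) with hD
  have hD0 : 0 ≤ D := by positivity
  have bW : ∀ s ∈ Ioc 0 t, ∀ x ∈ Ioo 0 L, |w s x| ≤ D := by
    intro s hs x hx
    refine (P5_mild_abs hL hK hMB hs.1 x (Ioo_subset_Icc_self hx)).trans ?_
    exact mul_le_mul_of_nonneg_left (by linarith [hs.2]) hC
  have iW : ∀ s, 0 < s → ∀ ψ : ℝ → ℝ, Continuous ψ →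
      IntervalIntegrable (fun x => w s x * ψ x) volume 0 L := fun s hs ψ hψ => hw.slice hL hs hψ
  have iH : ∀ s, ∀ ψ : ℝ → ℝ, Continuous ψ →
      IntervalIntegrable (fun x => H s x * ψ x) volume 0 L := fun s ψ hψ =>
    P5_mul_ii (hMB.2.1.comp (measurable_const.prodMk measurable_id)) (hMB.2.2.2 s) hψ
  have i0 : ∀ ψ : ℝ → ℝ, Continuous ψ →
      IntervalIntegrable (fun x => h₀ x * ψ x) volume 0 L := fun ψ hψ =>
    P5_mul_ii hMB.1 hMB.2.2.1 hψ
  have iWt : ∀ ψ : ℝ → ℝ, Continuous ψ →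
      IntervalIntegrable (fun s => ∫ x in (0 : ℝ)..L, w s x * ψ x) volume 0 t :=
    fun ψ hψ => hw.time_integrable hL hψ ht
  have iHt : ∀ ψ : ℝ → ℝ, Continuous ψ →
      IntervalIntegrable (fun s => ∫ x in (0 : ℝ)..L, H s x * ψ x) volume 0 t := by
    intro ψ hψ
    obtain ⟨G, hG⟩ := isCompact_Icc.exists_bound_of_continuousOn (s := Icc 0 L) hψ.continuousOn
    apply P5_bdd_ii (C := C * G * L) (P5_meas_int hL hMB.2.1 hψ.measurable)
    intro s
    apply P5_bound_integral hL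
    intro x hx
    rw [abs_mul]
    exact mul_le_mul (hMB.2.2.2 s x) (hG x ⟨hx.1.le, hx.2⟩) (abs_nonneg _) hC
  have e1 : ∫ s in (0 : ℝ)..t, ((∫ x in (0 : ℝ)..L, (w s x * deriv (deriv φ) x +
          (H s x - K * w s x) * φ x)) + 0 * deriv φ 0 - 0 * deriv φ L) =
      ∫ s in (0 : ℝ)..t, ((∫ x in (0 : ℝ)..L, w s x * deriv (deriv φ) x) +
          (∫ x in (0 : ℝ)..L, H s x * φ x) - K * ∫ x in (0 : ℝ)..L, w s x * φ x) := by
    rw [intervalIntegral.integral_of_le ht.le, intervalIntegral.integral_of_le ht.le]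
    apply setIntegral_congr_fun measurableSet_Ioc
    intro s hs
    simp only
    have h1 : ∀ x, w s x * deriv (deriv φ) x + (H s x - K * w s x) * φ x =
        w s x * deriv (deriv φ) x + H s x * φ x - K * (w s x * φ x) := fun x => by ring
    simp_rw [h1]
    rw [intervalIntegral.integral_sub ((iW s hs.1 _ c2).add (iH s _ c0))
      ((iW s hs.1 _ c0).const_mul K), intervalIntegral.integral_add (iW s hs.1 _ c2) (iH s _ c0),
      intervalIntegral.integral_const_mul]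
    ring
  simp only
  rw [e1]
  set A := D * L + C * L + (D + C * L + K * (D * L)) * t with hA
  have key : ∀ ε > 0, |(∫ x in (0 : ℝ)..L, w t x * φ x) - ((∫ x in (0 : ℝ)..L, h₀ x * φ x) +
      ∫ s in (0 : ℝ)..t, ((∫ x in (0 : ℝ)..L, w s x * deriv (deriv φ) x) +
          (∫ x in (0 : ℝ)..L, H s x * φ x) - K * ∫ x in (0 : ℝ)..L, w s x * φ x))| ≤ A * ε := by
    intro ε hε
    obtain ⟨N, c, hc1, hc2, -, -⟩ := dense_C2 hL hφ hφ0 hφL hε
    set Φ := flow L N c 0 with hΦ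
    have cΦ : Continuous Φ := P5_flow_cont L N c 0
    have cΦ2 : Continuous (deriv (deriv Φ)) := by
      rw [hΦ, P5_flow_deriv2]; exact P5_flow_cont _ _ _ _
    have hsum := P5_weak_flow hL hK hMB ht N c
    rw [← hΦ, ← hwdef] at hsum
    have hint : ∫ x in (0 : ℝ)..L, |φ x - Φ x| ≤ L * ε := by
      calc ∫ x in (0 : ℝ)..L, |φ x - Φ x| ≤ ∫ x in (0 : ℝ)..L, ε := by
            apply P5_int_mono hL ((c0.sub cΦ).abs.intervalIntegrable _ _)
              intervalIntegrable_const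
            intro x hx
            exact hc1 x (Ioo_subset_Icc_self hx)
        _ = L * ε := by simp
    have b1 : |(∫ x in (0 : ℝ)..L, w t x * φ x) - ∫ x in (0 : ℝ)..L, w t x * Φ x| ≤
        D * (L * ε) :=
      (P5_diff hL (bW t ⟨ht, le_rfl⟩) c0 cΦ (iW t ht _ c0) (iW t ht _ cΦ)).trans
        (mul_le_mul_of_nonneg_left hint hD0)
    have b2 : |(∫ x in (0 : ℝ)..L, h₀ x * φ x) - ∫ x in (0 : ℝ)..L, h₀ x * Φ x| ≤
        C * (L * ε) :=
      (P5_diff hL (fun x _ => hMB.2.2.1 x) c0 cΦ (i0 _ c0) (i0 _ cΦ)).trans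
        (mul_le_mul_of_nonneg_left hint hC)
    have b3 : |(∫ s in (0 : ℝ)..t, ((∫ x in (0 : ℝ)..L, w s x * deriv (deriv φ) x) +
          (∫ x in (0 : ℝ)..L, H s x * φ x) - K * ∫ x in (0 : ℝ)..L, w s x * φ x)) -
        ∫ s in (0 : ℝ)..t, ((∫ x in (0 : ℝ)..L, w s x * deriv (deriv Φ) x) +
          (∫ x in (0 : ℝ)..L, H s x * Φ x) - K * ∫ x in (0 : ℝ)..L, w s x * Φ x)| ≤
        (D * ε + C * (L * ε) + K * (D * (L * ε))) * t := by
      apply P5_diff_time ht (((iWt _ c2).add (iHt _ c0)).sub ((iWt _ c0).const_mul K))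
        (((iWt _ cΦ2).add (iHt _ cΦ)).sub ((iWt _ cΦ).const_mul K))
      intro s hs
      have a1 := (P5_diff hL (bW s hs) c2 cΦ2 (iW s hs.1 _ c2) (iW s hs.1 _ cΦ2)).trans
        (mul_le_mul_of_nonneg_left hc2 hD0)
      have a2 := (P5_diff hL (fun x _ => hMB.2.2.2 s x) c0 cΦ (iH s _ c0) (iH s _ cΦ)).trans
        (mul_le_mul_of_nonneg_left hint hC)
      have a3 := (P5_diff hL (bW s hs) c0 cΦ (iW s hs.1 _ c0) (iW s hs.1 _ cΦ)).trans
        (mul_le_mul_of_nonneg_left hint hD0)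
      have a4 := mul_le_mul_of_nonneg_left a3 hK
      rw [← abs_of_nonneg hK, ← abs_mul, abs_of_nonneg hK] at a4
      rw [abs_le] at a1 a2 a4 ⊢
      constructor <;> linarith [a1.1, a1.2, a2.1, a2.2, a4.1, a4.2]
    have hA' : A * ε = D * (L * ε) + C * (L * ε) +
        (D * ε + C * (L * ε) + K * (D * (L * ε))) * t := by rw [hA]; ring
    rw [hA']
    rw [abs_le] at b1 b2 b3 ⊢
    constructor <;> linarith [b1.1, b1.2, b2.1, b2.2, b3.1, b3.2]
  have hA0 : 0 ≤ A := by positivity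
  have key2 : |(∫ x in (0 : ℝ)..L, w t x * φ x) - ((∫ x in (0 : ℝ)..L, h₀ x * φ x) +
      ∫ s in (0 : ℝ)..t, ((∫ x in (0 : ℝ)..L, w s x * deriv (deriv φ) x) +
          (∫ x in (0 : ℝ)..L, H s x * φ x) - K * ∫ x in (0 : ℝ)..L, w s x * φ x))| ≤ 0 := by
    apply le_of_forall_pos_le_add
    intro δ hδ
    rw [zero_add]
    refine (key (δ / (A + 1)) (by positivity)).trans ?_
    rw [mul_div_assoc', div_le_iff₀ (by positivity)]
    nlinarith
  have := abs_nonpos_iff.mp key2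
  linarith

end Pool.Agent.H62.LV
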