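import Pool.Agent.H62.LV.Base

/-! P5: sine series, basic lemmas. -/

namespace Pool.Agent.H62.LV

open MeasureTheory Set Filter Topology

theorem P5_eig_cont (L : ℝ) (n : ℕ) : Continuous (eig L n) := by
  unfold eig; fun_prop

theorem P5_eig_abs (L : ℝ) (n : ℕ) (x : ℝ) : |eig L n x| ≤ 1 := Real.abs_sin_le_one _

theorem P5_eig_zero (L : ℝ) (n : ℕ) : eig L n 0 = 0 := by simp [eig]

theorem P5_eig_L {L : ℝ} (hL : 0 < L) (n : ℕ) : eig L n L = 0 := by
  unfold eig
  rw [mul_div_assoc, div_self hL.ne', mul_one]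
  have := Real.sin_nat_mul_pi (n+1)
  push_cast at this
  exact this

theorem P5_mu_pos {L : ℝ} (hL : 0 < L) (n : ℕ) : 0 < mu L n := by
  unfold mu; positivity

theorem P5_int_cos {L : ℝ} (hL : 0 < L) (k : ℤ) (hk : k ≠ 0) :
    ∫ x in (0 : ℝ)..L, Real.cos (k * Real.pi * x / L) = 0 := by
  have hc : (k * Real.pi / L : ℝ) ≠ 0 := by
    have : (k : ℝ) ≠ 0 := by exact_mod_cast hk
    positivity
  have h1 : (fun x : ℝ => Real.cos (k * Real.pi * x / L)) =
      fun x => Real.cos ((k * Real.pi / L) * x) := by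
    funext x; congr 1; ring
  rw [h1, intervalIntegral.integral_comp_mul_left (fun y => Real.cos y) hc, integral_cos]
  have h2 : (k * Real.pi / L : ℝ) * L = k * Real.pi := by field_simp
  rw [h2, Real.sin_int_mul_pi]
  simp

theorem P5_orth {L : ℝ} (hL : 0 < L) (n m : ℕ) :
    ∫ x in (0 : ℝ)..L, eig L n x * eig L m x = if n = m then L / 2 else 0 := by
  have h1 : ∀ x, eig L n x * eig L m x =
      1 / 2 * (Real.cos (((n - m : ℤ) : ℝ) * Real.pi * x / L) -
        Real.cos (((n + m + 2 : ℤ) : ℝ) * Real.pi * x / L)) := by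
    intro x
    unfold eig
    have := Real.cos_sub (((n : ℝ) + 1) * Real.pi * x / L) (((m : ℝ) + 1) * Real.pi * x / L)
    have h' := Real.cos_add (((n : ℝ) + 1) * Real.pi * x / L) (((m : ℝ) + 1) * Real.pi * x / L)
    have e1 : ((n : ℝ) + 1) * Real.pi * x / L - ((m : ℝ) + 1) * Real.pi * x / L =
      (((n - m : ℤ) : ℝ) * Real.pi * x / L) := by push_cast; ring
    have e2 : ((n : ℝ) + 1) * Real.pi * x / L + ((m : ℝ) + 1) * Real.pi * x / L =
      (((n + m + 2 : ℤ) : ℝ) * Real.pi * x / L) := by push_cast; ring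
    rw [e1] at this
    rw [e2] at h'
    rw [this, h']
    ring
  have hi : ∀ k : ℤ, IntervalIntegrable (fun x : ℝ => Real.cos ((k : ℝ) * Real.pi * x / L))
      volume 0 L := fun k => Continuous.intervalIntegrable (by fun_prop) _ _
  simp_rw [h1]
  rw [intervalIntegral.integral_const_mul, intervalIntegral.integral_sub (hi _) (hi _),
    P5_int_cos hL (n + m + 2) (by positivity)]
  split_ifs with h
  · subst h
    simp
    ring
  · rw [P5_int_cos hL _ (by omega)]
    simp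

theorem P5_bound_integral {L C : ℝ} (hL : 0 < L) {f : ℝ → ℝ} (h : ∀ x ∈ Ioc 0 L, |f x| ≤ C) :
    |∫ x in (0 : ℝ)..L, f x| ≤ C * L := by
  have := intervalIntegral.norm_integral_le_of_norm_le_const (a := 0) (b := L) (f := f) (C := C)
    (by intro x hx; rw [uIoc_of_le hL.le] at hx; simpa using h x hx)
  simpa [abs_of_pos hL] using this

theorem P5_coef_abs {L C : ℝ} (hL : 0 < L) {g : ℝ → ℝ} (hg : ∀ x, |g x| ≤ C) (n : ℕ) :
    |coef L g n| ≤ 2 * C := by
  unfold coef
  have hC : 0 ≤ C := (abs_nonneg _).trans (hg 0)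
  have h1 : |∫ x in (0 : ℝ)..L, g x * eig L n x| ≤ C * L := by
    apply P5_bound_integral hL
    intro x _
    rw [abs_mul]
    calc |g x| * |eig L n x| ≤ C * 1 :=
      mul_le_mul (hg x) (P5_eig_abs L n x) (abs_nonneg _) hC
      _ = C := mul_one _
  rw [abs_mul, abs_of_pos (by positivity : (0:ℝ) < 2 / L)]
  calc 2 / L * |∫ x in (0 : ℝ)..L, g x * eig L n x| ≤ 2 / L * (C * L) := by gcongr
    _ = 2 * C := by field_simp

theorem P5_meas_int {L : ℝ} (hL : 0 < L) {H : ℝ → ℝ → ℝ}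
    (hH : Measurable (fun z : ℝ × ℝ => H z.1 z.2)) {ψ : ℝ → ℝ} (hψ : Measurable ψ) :
    Measurable (fun s => ∫ x in (0 : ℝ)..L, H s x * ψ x) := by
  have h1 : (fun s => ∫ x in (0 : ℝ)..L, H s x * ψ x) =
      fun s => ∫ x, (H s x * ψ x) ∂(volume.restrict (Ioc 0 L)) := by
    funext s
    rw [intervalIntegral.integral_of_le hL.le]
  rw [h1]
  have h2 : StronglyMeasurable (fun z : ℝ × ℝ => H z.1 z.2 * ψ z.2) :=
    (hH.mul (hψ.comp measurable_snd)).stronglyMeasurable
  exact (StronglyMeasurable.integral_prod_right' (ν := volume.restrict (Ioc 0 L)) h2).measurable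

theorem P5_coef_meas {L : ℝ} (hL : 0 < L) {H : ℝ → ℝ → ℝ}
    (hH : Measurable (fun z : ℝ × ℝ => H z.1 z.2)) (n : ℕ) :
    Measurable (fun s => coef L (H s) n) := by
  unfold coef
  exact (P5_meas_int hL hH (P5_eig_cont L n).measurable).const_mul _

theorem P5_bdd_ii {f : ℝ → ℝ} (hf : Measurable f) {C : ℝ} (hC : ∀ x, |f x| ≤ C) (a b : ℝ) :
    IntervalIntegrable f volume a b := by
  apply (intervalIntegrable_const (c := C)).mono_fun hf.aestronglyMeasurable
  filter_upwards with x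
  simp only [Real.norm_eq_abs]
  exact (hC x).trans (le_abs_self _)

theorem P5_coef_ii {L C : ℝ} (hL : 0 < L) {h₀ : ℝ → ℝ} {H : ℝ → ℝ → ℝ} (hMB : MB C h₀ H) (n : ℕ)
    (a b : ℝ) : IntervalIntegrable (fun s => coef L (H s) n) volume a b :=
  P5_bdd_ii (P5_coef_meas hL hMB.2.1 n) (fun s => P5_coef_abs hL (hMB.2.2.2 s) n) a b

theorem P5_exp_ii {L C : ℝ} (hL : 0 < L) {h₀ : ℝ → ℝ} {H : ℝ → ℝ → ℝ} (hMB : MB C h₀ H) (n : ℕ)
    (ν t a b : ℝ) :
    IntervalIntegrable (fun s => Real.exp (-ν * (t - s)) * coef L (H s) n) volume a b :=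
  (P5_coef_ii hL hMB n a b).continuousOn_mul (by fun_prop)

/-- the coefficients through a primitive -/
theorem P5_mcoef_eq (L K : ℝ) (h₀ : ℝ → ℝ) (H : ℝ → ℝ → ℝ) (n : ℕ) (t : ℝ) :
    mcoef L K h₀ H n t = Real.exp (-(K + mu L n) * t) *
      (coef L h₀ n + ∫ s in (0 : ℝ)..t, Real.exp ((K + mu L n) * s) * coef L (H s) n) := by
  unfold mcoef
  rw [mul_add, ← intervalIntegral.integral_const_mul]
  congr 1
  apply intervalIntegral.integral_congr
  intro s _
  simp only
  rw [← mul_assoc, ← Real.exp_add]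
  congr 2
  ring

theorem P5_mcoef_cont {L C : ℝ} (hL : 0 < L) (K : ℝ) {h₀ : ℝ → ℝ} {H : ℝ → ℝ → ℝ}
    (hMB : MB C h₀ H) (n : ℕ) : Continuous (mcoef L K h₀ H n) := by
  have h1 : mcoef L K h₀ H n = fun t => Real.exp (-(K + mu L n) * t) *
      (coef L h₀ n + ∫ s in (0 : ℝ)..t, Real.exp ((K + mu L n) * s) * coef L (H s) n) := by
    funext t; exact P5_mcoef_eq L K h₀ H n t
  rw [h1]
  apply Continuous.mul (by fun_prop)
  apply Continuous.add continuous_const
  apply intervalIntegral.continuous_primitive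
  intro a b
  exact (P5_coef_ii hL hMB n a b).continuousOn_mul (by fun_prop)

theorem P5_mcoef_abs {L K C : ℝ} (hL : 0 < L) (hK : 0 ≤ K) {h₀ : ℝ → ℝ} {H : ℝ → ℝ → ℝ}
    (hMB : MB C h₀ H) (n : ℕ) {t : ℝ} (ht : 0 < t) :
    |mcoef L K h₀ H n t| ≤ (2 * C / t + 2 * C) / mu L n := by
  have hμ := P5_mu_pos hL n
  have hC : 0 ≤ C := (abs_nonneg _).trans (hMB.2.2.1 0)
  unfold mcoef
  have h1 : |Real.exp (-(K + mu L n) * t) * coef L h₀ n| ≤ 2 * C / t / mu L n := by
    rw [abs_mul, abs_of_pos (Real.exp_pos _)]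
    have e1 : Real.exp (-(K + mu L n) * t) ≤ 1 / (mu L n * t) := by
      have h2 : Real.exp (-(K + mu L n) * t) ≤ Real.exp (-(mu L n * t)) := by
        apply Real.exp_le_exp.mpr
        nlinarith [mul_nonneg hK ht.le]
      refine h2.trans ?_
      rw [Real.exp_neg, inv_eq_one_div]
      apply one_div_le_one_div_of_le (by positivity)
      have := Real.add_one_le_exp (mu L n * t)
      linarith
    calc Real.exp (-(K + mu L n) * t) * |coef L h₀ n| ≤ 1 / (mu L n * t) * (2 * C) :=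
      mul_le_mul e1 (P5_coef_abs hL hMB.2.2.1 n) (abs_nonneg _) (by positivity)
      _ = 2 * C / t / mu L n := by field_simp
  have h2 : |∫ s in (0 : ℝ)..t, Real.exp (-(K + mu L n) * (t - s)) * coef L (H s) n| ≤
      2 * C / mu L n := by
    have hb : ‖∫ s in (0 : ℝ)..t, Real.exp (-(K + mu L n) * (t - s)) * coef L (H s) n‖ ≤
        ∫ s in (0 : ℝ)..t, Real.exp (-(mu L n) * (t - s)) * (2 * C) := by
      apply intervalIntegral.norm_integral_le_of_norm_le ht.le
      · filter_upwards with s hs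
        rw [Real.norm_eq_abs, abs_mul, abs_of_pos (Real.exp_pos _)]
        apply mul_le_mul _ (P5_coef_abs hL (hMB.2.2.2 s) n) (abs_nonneg _) (Real.exp_pos _).le
        apply Real.exp_le_exp.mpr
        nlinarith [mul_nonneg hK (sub_nonneg.mpr hs.2)]
      · exact Continuous.intervalIntegrable (by fun_prop) _ _
    rw [Real.norm_eq_abs] at hb
    refine hb.trans ?_
    have hcalc : ∫ s in (0 : ℝ)..t, Real.exp (-(mu L n) * (t - s)) * (2 * C) =
        (1 - Real.exp (-(mu L n) * t)) / mu L n * (2 * C) := by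
      rw [intervalIntegral.integral_mul_const]
      congr 1
      have hd : ∀ s ∈ uIcc 0 t, HasDerivAt (fun s => Real.exp (-(mu L n) * (t - s)) / mu L n)
          (Real.exp (-(mu L n) * (t - s))) s := by
        intro s _
        have e1 : HasDerivAt (fun s : ℝ => -(mu L n) * (t - s)) (mu L n) s := by
          have := ((hasDerivAt_const s t).sub (hasDerivAt_id s)).const_mul (-(mu L n))
          simpa using this
        have e2 := e1.exp.div_const (mu L n)
        have e3 : Real.exp (-(mu L n) * (t - s)) * mu L n / mu L n =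
            Real.exp (-(mu L n) * (t - s)) := by field_simp
        rwa [e3] at e2
      rw [intervalIntegral.integral_eq_sub_of_hasDerivAt hd
        (Continuous.intervalIntegrable (by fun_prop) _ _)]
      simp
      ring
    rw [hcalc]
    have : (1 - Real.exp (-(mu L n) * t)) / mu L n * (2 * C) ≤ 1 / mu L n * (2 * C) := by
      have := Real.exp_pos (-(mu L n) * t)
      gcongr
      linarith
    calc _ ≤ 1 / mu L n * (2 * C) := this
      _ = 2 * C / mu L n := by ring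
  calc _ ≤ |Real.exp (-(K + mu L n) * t) * coef L h₀ n| +
      |∫ s in (0 : ℝ)..t, Real.exp (-(K + mu L n) * (t - s)) * coef L (H s) n| := abs_add_le _ _
    _ ≤ 2 * C / t / mu L n + 2 * C / mu L n := add_le_add h1 h2
    _ = _ := by ring

theorem P5_summable_mu {L : ℝ} (hL : 0 < L) : Summable (fun n : ℕ => 1 / mu L n) := by
  have h : (fun n : ℕ => 1 / mu L n) =
      fun n : ℕ => (L / Real.pi) ^ 2 * (1 / ((n + 1 : ℕ) : ℝ) ^ 2) := by
    funext n
    unfold mu
    have := Real.pi_pos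
    push_cast
    field_simp
  rw [h]
  apply Summable.mul_left
  exact (summable_nat_add_iff 1).mpr (Real.summable_one_div_nat_pow.mpr (by norm_num))

theorem P5_term_le {L K C : ℝ} (hL : 0 < L) (hK : 0 ≤ K) {h₀ : ℝ → ℝ} {H : ℝ → ℝ → ℝ}
    (hMB : MB C h₀ H) (n : ℕ) {δ t : ℝ} (hδ : 0 < δ) (ht : δ ≤ t) (x : ℝ) :
    ‖mcoef L K h₀ H n t * eig L n x‖ ≤ (2 * C / δ + 2 * C) * (1 / mu L n) := by
  have hμ := P5_mu_pos hL n
  have hC : 0 ≤ C := (abs_nonneg _).trans (hMB.2.2.1 0)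
  rw [Real.norm_eq_abs, abs_mul]
  calc |mcoef L K h₀ H n t| * |eig L n x| ≤ (2 * C / t + 2 * C) / mu L n * 1 :=
      mul_le_mul (P5_mcoef_abs hL hK hMB n (hδ.trans_le ht)) (P5_eig_abs L n x) (abs_nonneg _)
        (by have := hδ.trans_le ht; positivity)
    _ ≤ (2 * C / δ + 2 * C) / mu L n * 1 := by gcongr
    _ = _ := by ring

theorem P5_summable {L K C : ℝ} (hL : 0 < L) (hK : 0 ≤ K) {h₀ : ℝ → ℝ} {H : ℝ → ℝ → ℝ}
    (hMB : MB C h₀ H) {t : ℝ} (ht : 0 < t) (x : ℝ) :
    Summable (fun n => mcoef L K h₀ H n t * eig L n x) :=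
  Summable.of_norm_bounded ((P5_summable_mu hL).mul_left (2 * C / t + 2 * C))
    (fun n => P5_term_le hL hK hMB n ht le_rfl x)

theorem mild_continuousOn {L K C : ℝ} (hL : 0 < L) (hK : 0 ≤ K) {h₀ : ℝ → ℝ} {H : ℝ → ℝ → ℝ}
    (hMB : MB C h₀ H) :
    ContinuousOn (fun z : ℝ × ℝ => mild L K h₀ H z.1 z.2) (Ioi 0 ×ˢ univ) := by
  intro z hz
  have hz1 : 0 < z.1 := hz.1
  set δ := z.1 / 2 with hδdef
  have hδ : 0 < δ := by positivity
  have hcont : ContinuousOn (fun z : ℝ × ℝ => mild L K h₀ H z.1 z.2) (Ioi δ ×ˢ univ) := by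
    unfold mild
    apply continuousOn_tsum (u := fun n => (2 * C / δ + 2 * C) * (1 / mu L n))
    · intro n
      apply Continuous.continuousOn
      exact ((P5_mcoef_cont hL K hMB n).comp continuous_fst).mul
        ((P5_eig_cont L n).comp continuous_snd)
    · exact (P5_summable_mu hL).mul_left _
    · intro n w hw
      exact P5_term_le hL hK hMB n hδ (le_of_lt hw.1) w.2
  have hopen : (Ioi δ ×ˢ univ : Set (ℝ × ℝ)) ∈ 𝓝 z := by
    apply (isOpen_Ioi.prod isOpen_univ).mem_nhds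
    refine ⟨?_, trivial⟩
    simp only [mem_Ioi, hδdef]
    linarith
  exact (hcont.continuousAt hopen).continuousWithinAt

theorem mild_boundary {L K : ℝ} (hL : 0 < L) (h₀ : ℝ → ℝ) (H : ℝ → ℝ → ℝ) (t : ℝ) :
    mild L K h₀ H t 0 = 0 ∧ mild L K h₀ H t L = 0 := by
  unfold mild
  simp [P5_eig_zero, P5_eig_L hL]

end Pool.Agent.H62.LV
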