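import Pool.Agent.Helper7.LV.P5a

/-! P5: linearity, limits, the representation against finite sine sums. -/

namespace Pool.Agent.H62.LV

open MeasureTheory Set Filter Topology

theorem P5_mul_ii {L C : ℝ} {g : ℝ → ℝ} (hg : Measurable g) (hC : ∀ x, |g x| ≤ C)
    {ψ : ℝ → ℝ} (hψ : Continuous ψ) : IntervalIntegrable (fun x => g x * ψ x) volume 0 L :=
  (P5_bdd_ii hg hC 0 L).mul_continuousOn hψ.continuousOn

theorem P5_coef_add {L C : ℝ} {g g' : ℝ → ℝ} (hg : Measurable g) (hg' : Measurable g')
    (hC : ∀ x, |g x| ≤ C) (hC' : ∀ x, |g' x| ≤ C) (α β : ℝ) (n : ℕ) :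
    coef L (fun x => α * g x + β * g' x) n = α * coef L g n + β * coef L g' n := by
  unfold coef
  have h1 : ∀ x, (α * g x + β * g' x) * eig L n x =
      α * (g x * eig L n x) + β * (g' x * eig L n x) := fun x => by ring
  simp_rw [h1]
  rw [intervalIntegral.integral_add ((P5_mul_ii hg hC (P5_eig_cont L n)).const_mul α)
    ((P5_mul_ii hg' hC' (P5_eig_cont L n)).const_mul β),
    intervalIntegral.integral_const_mul, intervalIntegral.integral_const_mul]
  ring

theorem P5_mcoef_add {L K C : ℝ} (hL : 0 < L) {h₀ h₀' : ℝ → ℝ} {H H' : ℝ → ℝ → ℝ}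
    (hMB : MB C h₀ H) (hMB' : MB C h₀' H') (α β : ℝ) (n : ℕ) (t : ℝ) :
    mcoef L K (fun x => α * h₀ x + β * h₀' x) (fun s x => α * H s x + β * H' s x) n t =
      α * mcoef L K h₀ H n t + β * mcoef L K h₀' H' n t := by
  unfold mcoef
  rw [P5_coef_add hMB.1 hMB'.1 hMB.2.2.1 hMB'.2.2.1]
  have h1 : ∀ s, Real.exp (-(K + mu L n) * (t - s)) *
      coef L (fun x => α * H s x + β * H' s x) n =
      α * (Real.exp (-(K + mu L n) * (t - s)) * coef L (H s) n) +
        β * (Real.exp (-(K + mu L n) * (t - s)) * coef L (H' s) n) := by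
    intro s
    have m1 : Measurable (H s) := hMB.2.1.comp (measurable_const.prodMk measurable_id)
    have m2 : Measurable (H' s) := hMB'.2.1.comp (measurable_const.prodMk measurable_id)
    rw [P5_coef_add m1 m2 (hMB.2.2.2 s) (hMB'.2.2.2 s)]
    ring
  simp_rw [h1]
  rw [intervalIntegral.integral_add ((P5_exp_ii hL hMB n (K + mu L n) t 0 t).const_mul α)
    ((P5_exp_ii hL hMB' n (K + mu L n) t 0 t).const_mul β),
    intervalIntegral.integral_const_mul, intervalIntegral.integral_const_mul]
  ring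

theorem mild_add {L K C : ℝ} (hL : 0 < L) (hK : 0 ≤ K) {h₀ h₀' : ℝ → ℝ} {H H' : ℝ → ℝ → ℝ}
    (hMB : MB C h₀ H) (hMB' : MB C h₀' H') (α β : ℝ) {t : ℝ} (ht : 0 < t) (x : ℝ) :
    mild L K (fun x => α * h₀ x + β * h₀' x) (fun s x => α * H s x + β * H' s x) t x =
      α * mild L K h₀ H t x + β * mild L K h₀' H' t x := by
  unfold mild
  simp_rw [P5_mcoef_add hL hMB hMB' α β]
  have h1 : ∀ n, (α * mcoef L K h₀ H n t + β * mcoef L K h₀' H' n t) * eig L n x =
      α * (mcoef L K h₀ H n t * eig L n x) + β * (mcoef L K h₀' H' n t * eig L n x) :=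
    fun n => by ring
  simp_rw [h1]
  rw [Summable.tsum_add ((P5_summable hL hK hMB ht x).mul_left α)
    ((P5_summable hL hK hMB' ht x).mul_left β), tsum_mul_left, tsum_mul_left]

theorem P5_coef_tendsto {L C : ℝ} (hL : 0 < L) {g : ℕ → ℝ → ℝ} {g' : ℝ → ℝ}
    (hg : ∀ k, Measurable (g k)) (hC : ∀ k x, |g k x| ≤ C)
    (hlim : ∀ x ∈ Ioo 0 L, Tendsto (fun k => g k x) atTop (𝓝 (g' x))) (n : ℕ) :
    Tendsto (fun k => coef L (g k) n) atTop (𝓝 (coef L g' n)) := by
  unfold coef
  apply Tendsto.const_mul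
  apply intervalIntegral.tendsto_integral_filter_of_dominated_convergence (fun _ => C)
  · filter_upwards with k
    exact ((hg k).mul (P5_eig_cont L n).measurable).aestronglyMeasurable
  · filter_upwards with k
    filter_upwards with x _
    rw [Real.norm_eq_abs, abs_mul]
    calc |g k x| * |eig L n x| ≤ C * 1 :=
      mul_le_mul (hC k x) (P5_eig_abs L n x) (abs_nonneg _) ((abs_nonneg _).trans (hC k x))
      _ = C := mul_one _
  · exact intervalIntegrable_const
  · have hne : ∀ᵐ x : ℝ, x ≠ L := by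
      simp [ae_iff, measure_singleton]
    filter_upwards [hne] with x hx hx'
    rw [uIoc_of_le hL.le] at hx'
    exact (hlim x ⟨hx'.1, lt_of_le_of_ne hx'.2 hx⟩).mul_const _

theorem mild_tendsto {L K C : ℝ} (hL : 0 < L) (hK : 0 ≤ K) {h₀ : ℝ → ℝ}
    {H : ℕ → ℝ → ℝ → ℝ} {H' : ℝ → ℝ → ℝ}
    (hMB : ∀ k, MB C h₀ (H k)) (hMB' : MB C h₀ H')
    (hlim : ∀ t, 0 < t → ∀ x ∈ Ioo 0 L, Tendsto (fun k => H k t x) atTop (𝓝 (H' t x)))
    {t : ℝ} (ht : 0 < t) (x : ℝ) :
    Tendsto (fun k => mild L K h₀ (H k) t x) atTop (𝓝 (mild L K h₀ H' t x)) := by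
  unfold mild
  apply tendsto_tsum_of_dominated_convergence
    (bound := fun n => (2 * C / t + 2 * C) * (1 / mu L n))
  · exact (P5_summable_mu hL).mul_left _
  · intro n
    apply Tendsto.mul_const
    unfold mcoef
    apply Tendsto.const_add
    apply intervalIntegral.tendsto_integral_filter_of_dominated_convergence
      (fun s => Real.exp (-(K + mu L n) * (t - s)) * (2 * C))
    · filter_upwards with k
      apply Measurable.aestronglyMeasurable
      exact (by fun_prop : Measurable fun s : ℝ => Real.exp (-(K + mu L n) * (t - s))).mul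
        (P5_coef_meas hL (hMB k).2.1 n)
    · filter_upwards with k
      filter_upwards with s _
      rw [Real.norm_eq_abs, abs_mul, abs_of_pos (Real.exp_pos _)]
      exact mul_le_mul_of_nonneg_left (P5_coef_abs hL ((hMB k).2.2.2 s) n) (Real.exp_pos _).le
    · exact Continuous.intervalIntegrable (by fun_prop) _ _
    · filter_upwards with s hs
      rw [uIoc_of_le ht.le] at hs
      apply Tendsto.const_mul
      apply P5_coef_tendsto hL (C := C)
      · intro k
        exact (hMB k).2.1.comp (measurable_const.prodMk measurable_id)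
      · intro k x
        exact (hMB k).2.2.2 s x
      · exact hlim s hs.1
  · filter_upwards with k
    intro n
    exact P5_term_le hL hK (hMB k) n ht le_rfl x

theorem P5_int_mild_eig {L K C : ℝ} (hL : 0 < L) (hK : 0 ≤ K) {h₀ : ℝ → ℝ} {H : ℝ → ℝ → ℝ}
    (hMB : MB C h₀ H) {t : ℝ} (ht : 0 < t) (m : ℕ) :
    ∫ x in (0 : ℝ)..L, mild L K h₀ H t x * eig L m x = L / 2 * mcoef L K h₀ H m t := by
  have hC : 0 ≤ C := (abs_nonneg _).trans (hMB.2.2.1 0)
  have h1 : HasSum (fun n => ∫ x in (0 : ℝ)..L, mcoef L K h₀ H n t * eig L n x * eig L m x)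
      (∫ x in (0 : ℝ)..L, mild L K h₀ H t x * eig L m x) := by
    apply intervalIntegral.hasSum_integral_of_dominated_convergence
      (fun n _ => (2 * C / t + 2 * C) * (1 / mu L n))
    · intro n
      apply Continuous.aestronglyMeasurable
      exact (continuous_const.mul (P5_eig_cont L n)).mul (P5_eig_cont L m)
    · intro n
      filter_upwards with x _
      rw [norm_mul]
      calc ‖mcoef L K h₀ H n t * eig L n x‖ * ‖eig L m x‖ ≤
          ((2 * C / t + 2 * C) * (1 / mu L n)) * 1 := by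
            apply mul_le_mul (P5_term_le hL hK hMB n ht le_rfl x) (P5_eig_abs L m x)
              (abs_nonneg _)
            have := P5_mu_pos hL n
            positivity
        _ = _ := mul_one _
    · filter_upwards with x _
      exact (P5_summable_mu hL).mul_left _
    · exact intervalIntegrable_const
    · filter_upwards with x _
      unfold mild
      exact (P5_summable hL hK hMB ht x).hasSum.mul_right _
  have h2 : HasSum (fun n => ∫ x in (0 : ℝ)..L, mcoef L K h₀ H n t * eig L n x * eig L m x)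
      (L / 2 * mcoef L K h₀ H m t) := by
    have e : (fun n => ∫ x in (0 : ℝ)..L, mcoef L K h₀ H n t * eig L n x * eig L m x) =
        fun n => if n = m then L / 2 * mcoef L K h₀ H m t else 0 := by
      funext n
      simp_rw [mul_assoc]
      rw [intervalIntegral.integral_const_mul, P5_orth hL]
      split_ifs with h
      · subst h; ring
      · ring
    rw [e]
    exact hasSum_ite_eq m _
  exact h1.unique h2

theorem P5_flow_cont (L : ℝ) (N : ℕ) (c : ℕ → ℝ) (τ : ℝ) : Continuous (flow L N c τ) := by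
  unfold flow
  apply continuous_finsetSum
  intro n _
  exact continuous_const.mul (P5_eig_cont L n)

theorem P5_mild_cont {L K C : ℝ} (hL : 0 < L) (hK : 0 ≤ K) {h₀ : ℝ → ℝ} {H : ℝ → ℝ → ℝ}
    (hMB : MB C h₀ H) {t : ℝ} (ht : 0 < t) : Continuous (mild L K h₀ H t) := by
  have h := mild_continuousOn hL hK hMB
  have h2 : ContinuousOn (fun x : ℝ => (t, x)) univ := by fun_prop
  have h3 := h.comp h2 (fun x _ => ⟨ht, trivial⟩)
  exact continuousOn_univ.mp h3

theorem P5_int_mild_flow {L K C : ℝ} (hL : 0 < L) (hK : 0 ≤ K) {h₀ : ℝ → ℝ} {H : ℝ → ℝ → ℝ}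
    (hMB : MB C h₀ H) {t : ℝ} (ht : 0 < t) (N : ℕ) (c : ℕ → ℝ) :
    ∫ x in (0 : ℝ)..L, mild L K h₀ H t x * flow L N c 0 x =
      ∑ n ∈ Finset.range N, c n * (L / 2 * mcoef L K h₀ H n t) := by
  have h1 : ∀ x, mild L K h₀ H t x * flow L N c 0 x =
      ∑ n ∈ Finset.range N, c n * (mild L K h₀ H t x * eig L n x) := by
    intro x
    unfold flow
    rw [Finset.mul_sum]
    apply Finset.sum_congr rfl
    intro n _
    simp
    ring
  simp_rw [h1]
  rw [intervalIntegral.integral_finsetSum]
  · apply Finset.sum_congr rfl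
    intro n _
    rw [intervalIntegral.integral_const_mul, P5_int_mild_eig hL hK hMB ht]
  · intro n _
    apply Continuous.intervalIntegrable
    exact continuous_const.mul ((P5_mild_cont hL hK hMB ht).mul (P5_eig_cont L n))

theorem P5_int_flow {L C : ℝ} (hL : 0 < L) {g : ℝ → ℝ} (hg : Measurable g)
    (hC : ∀ x, |g x| ≤ C) (N : ℕ) (c : ℕ → ℝ) (τ : ℝ) :
    ∫ x in (0 : ℝ)..L, g x * flow L N c τ x =
      ∑ n ∈ Finset.range N, c n * (L / 2 * (Real.exp (-(mu L n) * τ) * coef L g n)) := by
  have h1 : ∀ x, g x * flow L N c τ x =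
      ∑ n ∈ Finset.range N, (c n * Real.exp (-(mu L n) * τ)) * (g x * eig L n x) := by
    intro x
    unfold flow
    rw [Finset.mul_sum]
    apply Finset.sum_congr rfl
    intro n _
    ring
  simp_rw [h1]
  rw [intervalIntegral.integral_finsetSum]
  · apply Finset.sum_congr rfl
    intro n _
    rw [intervalIntegral.integral_const_mul]
    unfold coef
    field_simp
  · intro n _
    exact (P5_mul_ii hg hC (P5_eig_cont L n)).const_mul _

/-- the representation of the mild solution against finite sine sums -/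
theorem P5_repr {L K C : ℝ} (hL : 0 < L) (hK : 0 ≤ K) {h₀ : ℝ → ℝ} {H : ℝ → ℝ → ℝ}
    (hMB : MB C h₀ H) {t : ℝ} (ht : 0 < t) (N : ℕ) (c : ℕ → ℝ) :
    ∫ x in (0 : ℝ)..L, mild L K h₀ H t x * flow L N c 0 x =
      Real.exp (-K * t) * (∫ x in (0 : ℝ)..L, h₀ x * flow L N c t x) +
        ∫ s in (0 : ℝ)..t, Real.exp (-K * (t - s)) *
          ∫ x in (0 : ℝ)..L, H s x * flow L N c (t - s) x := by
  rw [P5_int_mild_flow hL hK hMB ht, P5_int_flow hL hMB.1 hMB.2.2.1]
  have h1 : ∀ s, Real.exp (-K * (t - s)) * (∫ x in (0 : ℝ)..L, H s x * flow L N c (t - s) x) =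
      ∑ n ∈ Finset.range N, c n * (L / 2) *
        (Real.exp (-(K + mu L n) * (t - s)) * coef L (H s) n) := by
    intro s
    have m1 : Measurable (H s) := hMB.2.1.comp (measurable_const.prodMk measurable_id)
    rw [P5_int_flow hL m1 (hMB.2.2.2 s), Finset.mul_sum]
    apply Finset.sum_congr rfl
    intro n _
    have : Real.exp (-(K + mu L n) * (t - s)) =
        Real.exp (-K * (t - s)) * Real.exp (-(mu L n) * (t - s)) := by
      rw [← Real.exp_add]; congr 1; ring
    rw [this]
    ring
  simp_rw [h1]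
  rw [intervalIntegral.integral_finsetSum]
  · rw [Finset.mul_sum, ← Finset.sum_add_distrib]
    apply Finset.sum_congr rfl
    intro n _
    rw [intervalIntegral.integral_const_mul]
    unfold mcoef
    have : Real.exp (-(K + mu L n) * t) =
        Real.exp (-K * t) * Real.exp (-(mu L n) * t) := by
      rw [← Real.exp_add]; congr 1; ring
    rw [this]
    ring
  · intro n _
    exact (P5_exp_ii hL hMB n (K + mu L n) t 0 t).const_mul _

end Pool.Agent.H62.LV
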