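import Pool.Agent.Helper7.LV.P5b
import Pool.Agent.H62.LV.Lin

/-! P5: the integral equation for the mild solution tested with sine sums. -/

namespace Pool.Agent.H62.LV

open MeasureTheory Set Filter Topology

/-- variation of constants in integral form -/
theorem P5_duhamel {ν c₀ : ℝ} {f : ℝ → ℝ} (hf : ∀ a b, IntervalIntegrable f volume a b) (t : ℝ) :
    Real.exp (-ν * t) * (c₀ + ∫ s in (0 : ℝ)..t, Real.exp (ν * s) * f s) =
      c₀ + ∫ s in (0 : ℝ)..t, (f s - ν * (Real.exp (-ν * s) *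
        (c₀ + ∫ r in (0 : ℝ)..s, Real.exp (ν * r) * f r))) := by
  have hg : ∀ a b, IntervalIntegrable (fun r => Real.exp (ν * r) * f r) volume a b :=
    fun a b => (hf a b).continuousOn_mul (by fun_prop)
  have hG : AbsolutelyContinuousOnInterval
      (fun s => c₀ + ∫ r in (0 : ℝ)..s, Real.exp (ν * r) * f r) 0 t := by
    have h1 : AbsolutelyContinuousOnInterval (fun _ : ℝ => c₀) 0 t :=
      contDiff_const.contDiffOn.absolutelyContinuousOnInterval
    exact h1.add ((hg 0 t).absolutelyContinuousOnInterval_intervalIntegral (by simp))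
  have hE : AbsolutelyContinuousOnInterval (fun s => Real.exp (-ν * s)) 0 t := by
    apply ContDiffOn.absolutelyContinuousOnInterval
    apply ContDiff.contDiffOn
    fun_prop
  have hM := hE.fun_mul hG
  have h2 := hM.integral_deriv_eq_sub
  have h3 : ∫ s in (0 : ℝ)..t, deriv (fun s => Real.exp (-ν * s) *
        (c₀ + ∫ r in (0 : ℝ)..s, Real.exp (ν * r) * f r)) s =
      ∫ s in (0 : ℝ)..t, (f s - ν * (Real.exp (-ν * s) *
        (c₀ + ∫ r in (0 : ℝ)..s, Real.exp (ν * r) * f r))) := by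
    apply intervalIntegral.integral_congr_ae
    filter_upwards [(hg 0 t).ae_hasDerivAt_integral] with s hs hs'
    have hs2 := hs (uIoc_subset_uIcc hs') 0 (by simp)
    have e1 : HasDerivAt (fun s : ℝ => Real.exp (-ν * s)) (Real.exp (-ν * s) * (-ν)) s := by
      have : HasDerivAt (fun s : ℝ => -ν * s) (-ν) s := by
        simpa using (hasDerivAt_id s).const_mul (-ν)
      exact this.exp
    have e2 := e1.mul (hs2.const_add c₀)
    have e3 := e2.deriv
    have e4 : Real.exp (-ν * s) * (Real.exp (ν * s) * f s) = f s := by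
      rw [← mul_assoc, ← Real.exp_add]
      simp
    calc _ = Real.exp (-ν * s) * -ν * (c₀ + ∫ r in (0 : ℝ)..s, Real.exp (ν * r) * f r) +
        Real.exp (-ν * s) * (Real.exp (ν * s) * f s) := e3
      _ = _ := by rw [e4]; ring
  rw [← h3, h2]
  simp

theorem P5_mcoef_ode {L K C : ℝ} (hL : 0 < L) {h₀ : ℝ → ℝ} {H : ℝ → ℝ → ℝ}
    (hMB : MB C h₀ H) (n : ℕ) (t : ℝ) :
    mcoef L K h₀ H n t = coef L h₀ n +
      ∫ s in (0 : ℝ)..t, (coef L (H s) n - (K + mu L n) * mcoef L K h₀ H n s) := by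
  have h1 := P5_duhamel (ν := K + mu L n) (c₀ := coef L h₀ n)
    (f := fun s => coef L (H s) n) (P5_coef_ii hL hMB n) t
  rw [← P5_mcoef_eq] at h1
  rw [h1]
  congr 1
  apply intervalIntegral.integral_congr
  intro s _
  simp only
  rw [P5_mcoef_eq]

theorem P5_eig_deriv (L : ℝ) (n : ℕ) (x : ℝ) : HasDerivAt (eig L n)
    ((n + 1) * Real.pi / L * Real.cos ((n + 1) * Real.pi * x / L)) x := by
  unfold eig
  have h1 : HasDerivAt (fun x : ℝ => ((n : ℝ) + 1) * Real.pi * x / L)
      ((n + 1) * Real.pi / L) x := by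
    have := ((hasDerivAt_id x).const_mul (((n : ℝ) + 1) * Real.pi)).div_const L
    simpa using this
  have h2 := h1.sin
  have h3 : Real.cos (((n : ℝ) + 1) * Real.pi * x / L) * (((n : ℝ) + 1) * Real.pi / L) =
      ((n : ℝ) + 1) * Real.pi / L * Real.cos (((n : ℝ) + 1) * Real.pi * x / L) := mul_comm _ _
  rwa [h3] at h2

theorem P5_cos_deriv (L : ℝ) (n : ℕ) (x : ℝ) :
    HasDerivAt (fun x : ℝ => (n + 1) * Real.pi / L * Real.cos ((n + 1) * Real.pi * x / L))
      (-(mu L n) * eig L n x) x := by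
  have h1 : HasDerivAt (fun x : ℝ => ((n : ℝ) + 1) * Real.pi * x / L)
      ((n + 1) * Real.pi / L) x := by
    have := ((hasDerivAt_id x).const_mul (((n : ℝ) + 1) * Real.pi)).div_const L
    simpa using this
  have h2 := h1.cos.const_mul (((n : ℝ) + 1) * Real.pi / L)
  have h3 : ((n : ℝ) + 1) * Real.pi / L *
      (-Real.sin (((n : ℝ) + 1) * Real.pi * x / L) * (((n : ℝ) + 1) * Real.pi / L)) =
      -(mu L n) * eig L n x := by
    unfold mu eig; ring
  rwa [h3] at h2

theorem P5_flow_deriv (L : ℝ) (N : ℕ) (c : ℕ → ℝ) (x : ℝ) :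
    HasDerivAt (flow L N c 0) (flow' L N c 0 x) x := by
  have h : flow L N c 0 = fun x => ∑ n ∈ Finset.range N,
      c n * Real.exp (-(mu L n) * 0) * eig L n x := rfl
  rw [h]
  unfold flow'
  apply HasDerivAt.fun_sum
  intro n _
  exact (P5_eig_deriv L n x).const_mul _

theorem P5_flow'_deriv (L : ℝ) (N : ℕ) (c : ℕ → ℝ) (x : ℝ) :
    HasDerivAt (flow' L N c 0) (flow L N (fun n => -(mu L n) * c n) 0 x) x := by
  have h : flow' L N c 0 = fun x => ∑ n ∈ Finset.range N,
    c n * Real.exp (-(mu L n) * 0) * ((n + 1) * Real.pi / L *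
      Real.cos ((n + 1) * Real.pi * x / L)) := rfl
  rw [h]
  have h2 : flow L N (fun n => -(mu L n) * c n) 0 x = ∑ n ∈ Finset.range N,
      c n * Real.exp (-(mu L n) * 0) * (-(mu L n) * eig L n x) := by
    unfold flow
    apply Finset.sum_congr rfl
    intro n _
    ring
  rw [h2]
  apply HasDerivAt.fun_sum
  intro n _
  exact (P5_cos_deriv L n x).const_mul _

theorem P5_flow_deriv2 (L : ℝ) (N : ℕ) (c : ℕ → ℝ) :
    deriv (deriv (flow L N c 0)) = flow L N (fun n => -(mu L n) * c n) 0 := by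
  have h1 : deriv (flow L N c 0) = flow' L N c 0 := by
    funext x; exact (P5_flow_deriv L N c x).deriv
  rw [h1]
  funext x
  exact (P5_flow'_deriv L N c x).deriv

/-- the identity for sine sums -/
theorem P5_weak_flow {L K C : ℝ} (hL : 0 < L) (hK : 0 ≤ K) {h₀ : ℝ → ℝ} {H : ℝ → ℝ → ℝ}
    (hMB : MB C h₀ H) {t : ℝ} (ht : 0 < t) (N : ℕ) (c : ℕ → ℝ) :
    ∫ x in (0 : ℝ)..L, mild L K h₀ H t x * flow L N c 0 x =
      (∫ x in (0 : ℝ)..L, h₀ x * flow L N c 0 x) +
        ∫ s in (0 : ℝ)..t, ((∫ x in (0 : ℝ)..L, mild L K h₀ H s x *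
            deriv (deriv (flow L N c 0)) x) +
          (∫ x in (0 : ℝ)..L, H s x * flow L N c 0 x) -
          K * ∫ x in (0 : ℝ)..L, mild L K h₀ H s x * flow L N c 0 x) := by
  rw [P5_int_mild_flow hL hK hMB ht, P5_int_flow hL hMB.1 hMB.2.2.1, P5_flow_deriv2]
  have h1 : ∫ s in (0 : ℝ)..t, ((∫ x in (0 : ℝ)..L, mild L K h₀ H s x *
            flow L N (fun n => -(mu L n) * c n) 0 x) +
          (∫ x in (0 : ℝ)..L, H s x * flow L N c 0 x) -
          K * ∫ x in (0 : ℝ)..L, mild L K h₀ H s x * flow L N c 0 x) =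
      ∫ s in (0 : ℝ)..t, ∑ n ∈ Finset.range N, c n * (L / 2) *
        (coef L (H s) n - (K + mu L n) * mcoef L K h₀ H n s) := by
    rw [intervalIntegral.integral_of_le ht.le, intervalIntegral.integral_of_le ht.le]
    apply setIntegral_congr_fun measurableSet_Ioc
    intro s hs
    simp only
    have m1 : Measurable (H s) := hMB.2.1.comp (measurable_const.prodMk measurable_id)
    rw [P5_int_mild_flow hL hK hMB hs.1, P5_int_mild_flow hL hK hMB hs.1,
      P5_int_flow hL m1 (hMB.2.2.2 s), Finset.mul_sum, ← Finset.sum_add_distrib,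
      ← Finset.sum_sub_distrib]
    apply Finset.sum_congr rfl
    intro n _
    simp only [mul_zero, Real.exp_zero, one_mul]
    ring
  rw [h1, intervalIntegral.integral_finsetSum, ← Finset.sum_add_distrib]
  · apply Finset.sum_congr rfl
    intro n _
    rw [intervalIntegral.integral_const_mul]
    have := P5_mcoef_ode (K := K) hL hMB n t
    simp only [mul_zero, Real.exp_zero, one_mul]
    linear_combination (c n * (L / 2)) * this
  · intro n _
    apply IntervalIntegrable.const_mul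
    exact (P5_coef_ii hL hMB n 0 t).sub
      ((continuous_const.mul (P5_mcoef_cont hL K hMB n)).intervalIntegrable _ _)

/-- closeness of pairings -/
theorem P5_diff {L D : ℝ} (hL : 0 < L) {g : ℝ → ℝ} (hb : ∀ x ∈ Ioo 0 L, |g x| ≤ D)
    {φ Φ : ℝ → ℝ} (hφ : Continuous φ) (hΦ : Continuous Φ)
    (h1 : IntervalIntegrable (fun x => g x * φ x) volume 0 L)
    (h2 : IntervalIntegrable (fun x => g x * Φ x) volume 0 L) :
    |(∫ x in (0 : ℝ)..L, g x * φ x) - ∫ x in (0 : ℝ)..L, g x * Φ x| ≤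
      D * ∫ x in (0 : ℝ)..L, |φ x - Φ x| := by
  rw [← intervalIntegral.integral_sub h1 h2, ← intervalIntegral.integral_const_mul,
    intervalIntegral.integral_of_le hL.le, intervalIntegral.integral_of_le hL.le,
    integral_Ioc_eq_integral_Ioo, integral_Ioc_eq_integral_Ioo, ← Real.norm_eq_abs]
  apply norm_integral_le_of_norm_le
  · have : Continuous (fun x => D * |φ x - Φ x|) := continuous_const.mul (hφ.sub hΦ).abs
    exact this.integrableOn_Icc.mono_set Ioo_subset_Icc_self
  · filter_upwards [ae_restrict_mem measurableSet_Ioo] with x hx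
    rw [← mul_sub, norm_mul, Real.norm_eq_abs, Real.norm_eq_abs]
    exact mul_le_mul_of_nonneg_right (hb x hx) (abs_nonneg _)

/-- closeness of time integrals -/
theorem P5_diff_time {t D : ℝ} (ht : 0 < t) {f g : ℝ → ℝ} (hf : IntervalIntegrable f volume 0 t)
    (hg : IntervalIntegrable g volume 0 t) (h : ∀ s ∈ Ioc 0 t, |f s - g s| ≤ D) :
    |(∫ s in (0 : ℝ)..t, f s) - ∫ s in (0 : ℝ)..t, g s| ≤ D * t := by
  rw [← intervalIntegral.integral_sub hf hg]
  exact P5_bound_integral ht h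

end Pool.Agent.H62.LV
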